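import Mathlib
import Pool.Agent.H18.SAP.Stmts

/-! SAP module CIN: cost of a product of large primes. -/

set_option autoImplicit false

namespace SAP
open Finset

/-- `exp x ≤ 1 + 2 x` on `[0, 1]` -/
theorem CIN.exp_le (x : ℝ) (h0 : 0 ≤ x) (h1 : x ≤ 1) : Real.exp x ≤ 1 + 2 * x := by
  have h := Real.abs_exp_sub_one_sub_id_le (x := x) (by rw [abs_of_nonneg h0]; exact h1)
  have h2 := (abs_le.mp h).2
  have h3 : x ^ 2 ≤ x := by nlinarith
  linarith

theorem cin : S_CIN := by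
  intro ι s a X ha hc
  rcases Nat.eq_zero_or_pos X with h0 | h0
  · subst h0
    simp
  have hX : (0 : ℝ) < X := by exact_mod_cast h0
  have hapos : ∀ i ∈ s, (0 : ℝ) < a i := fun i hi => by
    have := ha i hi
    exact_mod_cast lt_of_lt_of_le h0 this
  have h1 : ∏ i ∈ s, ((a i : ℝ) + 1) ≤ ∏ i ∈ s, (Real.exp (1 / X) * (a i : ℝ)) := by
    apply Finset.prod_le_prod
    · intro i hi
      have := hapos i hi
      positivity
    · intro i hi
      have h2 := Real.add_one_le_exp (1 / (X : ℝ))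
      have h3 := hapos i hi
      have h4 : (X : ℝ) ≤ a i := by exact_mod_cast ha i hi
      calc (a i : ℝ) + 1 ≤ (1 / (X:ℝ) + 1) * a i := by
            have h5 : 1 ≤ (a i : ℝ) / X := (one_le_div hX).mpr h4
            have e : (1 / (X:ℝ) + 1) * a i = a i + a i / X := by ring
            rw [e]
            linarith
        _ ≤ _ := mul_le_mul_of_nonneg_right h2 h3.le
  rw [Finset.prod_mul_distrib, Finset.prod_const, ← Real.exp_nat_mul] at h1
  have hcx : (s.card : ℝ) ≤ X := by exact_mod_cast hc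
  have h2 : Real.exp ((s.card : ℝ) * (1 / X)) ≤ 1 + 2 * ((s.card : ℝ) * (1 / X)) := by
    apply CIN.exp_le
    · positivity
    · rw [mul_one_div]
      exact (div_le_one hX).mpr hcx
  have h3 : (0 : ℝ) ≤ ∏ i ∈ s, (a i : ℝ) := Finset.prod_nonneg fun i hi => (hapos i hi).le
  have h4 : ∏ i ∈ s, ((a i : ℝ) + 1) ≤ (1 + 2 * ((s.card : ℝ) * (1 / X))) * ∏ i ∈ s, (a i : ℝ) :=
    h1.trans (mul_le_mul_of_nonneg_right h2 h3)
  have h5 : (X : ℝ) * ∏ i ∈ s, ((a i : ℝ) + 1) ≤ (X + 2 * s.card) * ∏ i ∈ s, (a i : ℝ) := by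
    calc (X : ℝ) * ∏ i ∈ s, ((a i : ℝ) + 1)
        ≤ X * ((1 + 2 * ((s.card : ℝ) * (1 / X))) * ∏ i ∈ s, (a i : ℝ)) :=
          mul_le_mul_of_nonneg_left h4 hX.le
      _ = _ := by field_simp
  exact_mod_cast h5

end SAP
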