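import Mathlib
import Pool.Agent.H18.SAP.Stmts

/-! SAP module CRI: criterion for singly attained primes. -/

set_option autoImplicit false

namespace SAP
open Finset

theorem cri : S_CRI := by
  intro p hp hp3 hk n
  constructor
  · intro h
    have hne : {k : ℕ | 0 < k ∧ n ∣ k.totient}.Nonempty := by
      by_contra hne
      rw [Set.not_nonempty_iff_eq_empty] at hne
      rw [hne, Nat.sInf_empty] at h
      omega
    have hmem := Nat.sInf_mem hne
    rw [h] at hmem
    obtain ⟨-, hn⟩ := hmem
    rw [Nat.totient_prime hp] at hn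
    by_contra hneq
    obtain ⟨d, hd⟩ := hn
    have hn0 : n ≠ 0 := by
      rintro rfl
      rw [zero_mul] at hd
      omega
    have hd1 : d ≠ 1 := by
      rintro rfl
      rw [mul_one] at hd
      exact hneq hd.symm
    obtain ⟨ℓ, hℓ, hℓd⟩ := Nat.exists_prime_and_dvd hd1
    have h1 : ℓ ∣ p - 1 := hd ▸ dvd_mul_of_dvd_right hℓd n
    obtain ⟨k, hk0, hkp, hkd⟩ := hk ℓ hℓ h1
    have h2 : ℓ * n ∣ ℓ * k.totient := by
      refine dvd_trans ?_ hkd
      rw [hd, mul_comm ℓ n]
      exact Nat.mul_dvd_mul_left n hℓd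
    have h3 : n ∣ k.totient := Nat.dvd_of_mul_dvd_mul_left hℓ.pos h2
    have h4 : sInf {k : ℕ | 0 < k ∧ n ∣ k.totient} ≤ k := Nat.sInf_le ⟨hk0, h3⟩
    omega
  · rintro rfl
    apply le_antisymm
    · apply Nat.sInf_le
      exact ⟨hp.pos, by rw [Nat.totient_prime hp]⟩
    · apply le_csInf
      · exact ⟨p, hp.pos, by rw [Nat.totient_prime hp]⟩
      · rintro k ⟨hk0, hkd⟩
        have h1 : 0 < k.totient := Nat.totient_pos.mpr hk0
        have h2 := Nat.le_of_dvd h1 hkd
        have h3 : 1 < k := by
          by_contra h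
          have : k = 1 := by omega
          subst this
          simp at h2
          omega
        have h4 := Nat.totient_lt k h3
        omega

end SAP
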