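import Mathlib
import Pool.Agent.H18.SAP.Stmts

/-! SAP module SY0: basic facts on a system. -/

set_option autoImplicit false

namespace SAP
open Finset

theorem SY0.totient_prod {ι : Type} [DecidableEq ι] (s : Finset ι) (f : ι → ℕ)
    (hp : ∀ i ∈ s, (f i + 1).Prime) (hd : ∀ i ∈ s, ∀ j ∈ s, i ≠ j → f i + 1 ≠ f j + 1) :
    (∏ i ∈ s, (f i + 1)).totient = ∏ i ∈ s, f i := by
  induction s using Finset.induction_on with
  | empty => simp
  | insert a s ha ih =>
    rw [Finset.prod_insert ha, Finset.prod_insert ha, Nat.totient_mul, ih]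
    · rw [Nat.totient_prime (hp a (Finset.mem_insert_self a s))]
      simp
    · exact fun i hi => hp i (Finset.mem_insert_of_mem hi)
    · exact fun i hi j hj hij => hd i (Finset.mem_insert_of_mem hi) j (Finset.mem_insert_of_mem hj) hij
    · apply Nat.Coprime.prod_right
      intro i hi
      rw [Nat.coprime_primes (hp a (Finset.mem_insert_self a s)) (hp i (Finset.mem_insert_of_mem hi))]
      apply hd a (Finset.mem_insert_self a s) i (Finset.mem_insert_of_mem hi)
      rintro rfl
      exact ha hi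

theorem sy0 : S_SY0 := by
  intro L Y S X X0 Cm G Pos _ _ t A B k0 hY H
  classical
  have P1 : ∀ π π' : Pos, π ≠ π' → ∀ a b : ℕ, 1 ≤ a → a ≤ Cm → 1 ≤ b → b ≤ Cm → 2 ≤ X →
      a * t π + 1 ≠ b * t π' + 1 := by
    intro π π' hne a b ha1 ha2 hb1 hb2 hX heq
    have h1 : a * t π = b * t π' := by omega
    have h2 : t π ≠ 1 := by
      have := (H.tX π).1
      omega
    obtain ⟨p, hp, hpd⟩ := Nat.exists_prime_and_dvd h2
    have h3 : p ∣ b * t π' := h1 ▸ dvd_mul_of_dvd_right hpd a
    have h4 := H.trough π p hp hpd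
    have h5 := H.X0C
    rcases (Nat.Prime.dvd_mul hp).mp h3 with h | h
    · have := Nat.le_of_dvd hb1 h
      omega
    · have h6 := Nat.Coprime.eq_one_of_dvd ((H.tcop π π' hne).coprime_dvd_left hpd) h
      exact hp.one_lt.ne' h6
  have hX2 : ∀ l : Fin L, 2 ≤ X := by
    intro l
    obtain ⟨h1, h2, h3⟩ := H.kpos l 2 Nat.prime_two hY
    have h4 := H.XG'
    omega
  refine ⟨P1, ?_, ?_, ?_, ?_⟩
  · intro l
    have hX := hX2 l
    refine ⟨hX, ?_, ?_, ?_⟩
    · exact Finset.prod_pos fun π _ => Nat.succ_pos _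
    · unfold Qs hs
      apply SY0.totient_prod
      · intro π _
        exact H.Apr l π
      · intro π _ π' _ hne
        exact P1 π π' hne _ _ (H.Apos l π).1 (H.Apos l π).2 (H.Apos l π').1 (H.Apos l π').2 hX
    · obtain ⟨π⟩ := ‹Nonempty Pos›
      have h1 : A l π * t π ∣ hs t A l := Finset.dvd_prod_of_mem _ (Finset.mem_univ π)
      have h2 : 0 < hs t A l := by
        apply Finset.prod_pos
        intro π' _
        have h3 := (H.Apos l π').1
        have h4 := (H.tX π').1
        exact Nat.mul_pos (by omega) (by omega)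
      have h3 := Nat.le_of_dvd h2 h1
      have h4 := (H.Apos l π).1
      have h5 := (H.tX π).1
      calc 2 ≤ 1 * 2 := by norm_num
        _ ≤ A l π * t π := Nat.mul_le_mul h4 (by omega)
        _ ≤ _ := h3
  · intro l l' hne
    have hX := hX2 l
    unfold Qs
    apply Nat.Coprime.prod_left
    intro π _
    apply Nat.Coprime.prod_right
    intro π' _
    rw [Nat.coprime_primes (H.Apr l π) (H.Apr l' π')]
    by_cases hp : π = π'
    · subst hp
      intro heq
      have h1 : A l π * t π = A l' π * t π := by omega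
      have h2 : 0 < t π := by
        have := (H.tX π).1
        omega
      exact H.AA l l' π hne (Nat.eq_of_mul_eq_mul_right h2 h1)
    · exact P1 π π' hp _ _ (H.Apos l π).1 (H.Apos l π).2 (H.Apos l' π').1 (H.Apos l' π').2 hX
  · intro l l' ℓ hℓ hd
    obtain ⟨π, -, hπ⟩ := (Prime.dvd_finsetProd_iff hℓ.prime _).mp hd
    have h1 : A l' π * t π ∣ hs t A l' := Finset.dvd_prod_of_mem _ (Finset.mem_univ π)
    refine dvd_trans ?_ h1
    rcases (Nat.Prime.dvd_mul hℓ).mp hπ with h | h
    · exact dvd_mul_of_dvd_left (H.Adiv l' π ℓ hℓ (H.Asm l π ℓ hℓ h)) _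
    · exact dvd_mul_of_dvd_right h _
  · intro l p hp hpY
    obtain ⟨π⟩ := ‹Nonempty Pos›
    have h1 : A l π * t π ∣ hs t A l := Finset.dvd_prod_of_mem _ (Finset.mem_univ π)
    exact dvd_trans (dvd_mul_of_dvd_left (H.Adiv l π p hp hpY) _) h1

end SAP
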