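import Mathlib
import Pool.Agent.H18.SAP.Stmts

/-! SAP module SYS: a system gives a chain. -/

set_option autoImplicit false

namespace SAP
open Finset

theorem sys (hC : S_CHN) (h0 : S_SY0) (hB : S_SYB) (hR : S_SYR) : S_SYS := by
  intro L Y S X X0 Cm G Pos _ _ t A B k0 hY H
  obtain ⟨-, c2, c3, c4, c5⟩ := h0 L Y S X X0 Cm G Pos t A B k0 hY H
  obtain ⟨m, cp⟩ := hC L (hs t A) (Qs t A) (fun l => (c2 l).2) c3 c4 (by
    intro l ℓ hℓ hd
    by_cases hl : ℓ ≤ Y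
    · exact hB L Y S X X0 Cm G Pos t A B k0 hY H l ℓ hℓ hl
    · exact hR L Y S X X0 Cm G Pos t A B k0 hY H l ℓ hℓ (by omega) hd)
  refine ⟨fun i : Fin L => ∏ l ∈ Iic i, hs t A l, m, ?_, ?_, cp⟩
  · intro i
    apply Nat.one_le_iff_ne_zero.mpr
    apply Finset.prod_ne_zero_iff.mpr
    intro l _
    have := (c2 l).2.2.2
    omega
  · intro i p hp hpY
    exact dvd_trans (c5 i p hp hpY) (Finset.dvd_prod_of_mem _ (Finset.mem_Iic.mpr le_rfl))

end SAP
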