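import Mathlib
import Pool.Agent.H18.SAP.Stmts

/-! SAP module GAD: the data of the gadget for the prime 2. -/

set_option autoImplicit false

namespace SAP
open Finset

theorem GAD.exp_le (x : ℝ) (h0 : 0 ≤ x) (h1 : x ≤ 1) : Real.exp x ≤ 1 + 2 * x := by
  have h := Real.abs_exp_sub_one_sub_id_le (x := x) (by rw [abs_of_nonneg h0]; exact h1)
  have h2 := (abs_le.mp h).2
  have h3 : x ^ 2 ≤ x := by nlinarith
  linarith

/-- `t / φ(t)` for a rough number with few prime factors -/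
theorem GAD.totient (K X0 t : ℕ) (hX0 : 0 < X0) (ht : 0 < t)
    (hr : ∀ p : ℕ, p.Prime → p ∣ t → X0 < p) (hc : t.primeFactors.card ≤ K) :
    (t : ℝ) / t.totient ≤ (1 + 1 / (X0 : ℝ)) ^ K := by
  have hX : (0 : ℝ) < X0 := by exact_mod_cast hX0
  have ht' : (0 : ℝ) < t := by exact_mod_cast ht
  have h1 : (t.totient : ℝ) = t * ∏ p ∈ t.primeFactors, (1 - (p : ℝ)⁻¹) := by
    have h := Nat.totient_eq_mul_prod_factors t
    have h2 : ((t.totient : ℚ) : ℝ) = ((t * ∏ p ∈ t.primeFactors, (1 - (p : ℚ)⁻¹) : ℚ) : ℝ) := by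
      rw [h]
    push_cast at h2
    exact h2
  have h2 : ∀ p ∈ t.primeFactors, (1 + 1 / (X0 : ℝ))⁻¹ ≤ 1 - (p : ℝ)⁻¹ := by
    intro p hp
    have h3 := hr p (Nat.prime_of_mem_primeFactors hp) (Nat.dvd_of_mem_primeFactors hp)
    have h4 : (X0 : ℝ) + 1 ≤ p := by exact_mod_cast h3
    have h5 : (p : ℝ)⁻¹ ≤ ((X0 : ℝ) + 1)⁻¹ := inv_anti₀ (by positivity) h4
    have h6 : (1 + 1 / (X0 : ℝ))⁻¹ = 1 - ((X0 : ℝ) + 1)⁻¹ := by
      field_simp
      ring
    rw [h6]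
    linarith
  have h3 : ((1 + 1 / (X0 : ℝ))⁻¹) ^ K ≤ ∏ p ∈ t.primeFactors, (1 - (p : ℝ)⁻¹) := by
    calc ((1 + 1 / (X0 : ℝ))⁻¹) ^ K ≤ ((1 + 1 / (X0 : ℝ))⁻¹) ^ t.primeFactors.card := by
          apply pow_le_pow_of_le_one (by positivity) _ hc
          apply inv_le_one_of_one_le₀
          have : 0 < 1 / (X0 : ℝ) := by positivity
          linarith
      _ = ∏ p ∈ t.primeFactors, (1 + 1 / (X0 : ℝ))⁻¹ := by rw [Finset.prod_const]
      _ ≤ _ := Finset.prod_le_prod (fun _ _ => by positivity) h2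
  have h4 : (0 : ℝ) < (1 + 1 / (X0 : ℝ)) ^ K := by positivity
  have h5 : 0 < ∏ p ∈ t.primeFactors, (1 - (p : ℝ)⁻¹) := lt_of_lt_of_le (by positivity) h3
  rw [h1, div_le_iff₀ (by positivity)]
  have h6 : 1 ≤ (1 + 1 / (X0 : ℝ)) ^ K * ∏ p ∈ t.primeFactors, (1 - (p : ℝ)⁻¹) := by
    calc (1 : ℝ) = (1 + 1 / (X0 : ℝ)) ^ K * ((1 + 1 / (X0 : ℝ))⁻¹) ^ K := by
          rw [← mul_pow, mul_inv_cancel₀ (by positivity), one_pow]
      _ ≤ _ := mul_le_mul_of_nonneg_left h3 h4.le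
  nlinarith

theorem gad (hS : S_SEL) : S_GAD := by
  intro M T Y0 hM
  obtain ⟨K, hK⟩ := hS
  obtain ⟨n, hn⟩ := hK 1
  set E : ℕ := 128 * primorial (n + 1) with hE
  have hEp : 0 < primorial (n + 1) := primorial_pos _
  have hE128 : 128 ≤ E := by
    rw [hE]
    omega
  have hdiv : ∀ p : ℕ, p.Prime → p ≤ n + 1 → p ∣ E := by
    intro p hp hpn
    rw [hE]
    apply dvd_mul_of_dvd_right
    exact hp.dvd_primorial_iff.mpr hpn
  have hmono : StrictMono (fun i : Fin n => 2 * (E ^ ((i : ℕ) + 1)) ^ M) := by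
    intro i j hij
    have h1 : E ^ ((i : ℕ) + 1) < E ^ ((j : ℕ) + 1) :=
      Nat.pow_lt_pow_right (by omega) (by
        have : (i : ℕ) < j := hij
        omega)
    have h2 : (E ^ ((i : ℕ) + 1)) ^ M < (E ^ ((j : ℕ) + 1)) ^ M :=
      Nat.pow_lt_pow_left h1 (by omega)
    show 2 * (E ^ ((i : ℕ) + 1)) ^ M < 2 * (E ^ ((j : ℕ) + 1)) ^ M
    omega
  have hbig : ∀ i : Fin n, 128 ≤ (E ^ ((i : ℕ) + 1)) ^ M := by
    intro i
    calc 128 ≤ E := hE128
      _ ≤ E ^ ((i : ℕ) + 1) := Nat.le_self_pow (by omega) E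
      _ ≤ _ := Nat.le_self_pow (by omega) _
  obtain ⟨I, hI, hsel⟩ := hn Unit (fun _ i => 2 * (E ^ ((i : ℕ) + 1)) ^ M) (fun _ => hmono)
    (fun _ i => by
      have := hbig i
      omega)
    (fun _ i p hp hpn => by
      apply dvd_mul_of_dvd_right
      apply dvd_pow _ (by omega)
      exact dvd_pow (hdiv p hp hpn) (by omega))
  have hIc := hI ()
  obtain ⟨i, hi⟩ := Finset.card_pos.mp (show 0 < (I ()).card by omega)
  set X0 : ℕ := Y0 + 8 * M * (K + 1) + 2 with hX0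
  obtain ⟨X, t, hX, ht1, ht2, ht3, ht4, ht5, -⟩ := hsel T 0 X0
  have h128 := hbig i
  have hMX : 8 * M * (K + 1) ≤ X0 := by omega
  have hKX : K + 1 ≤ X0 := by
    have : K + 1 ≤ 8 * M * (K + 1) := by nlinarith
    omega
  have hqlow : ∀ a : Fin T, 256 * X ≤ 2 * (E ^ ((i : ℕ) + 1)) ^ M * t () a := by
    intro a
    have h1 := (ht1 () a).1
    calc 256 * X = 2 * 128 * X := by ring
      _ ≤ 2 * (E ^ ((i : ℕ) + 1)) ^ M * t () a := Nat.mul_le_mul (by omega) h1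
  refine ⟨E ^ ((i : ℕ) + 1), t (), fun a => 2 * (E ^ ((i : ℕ) + 1)) ^ M * t () a + 1, ?_⟩
  refine ⟨?_, fun a => rfl, ?_, ?_, ?_, ?_, ?_, ?_⟩
  · exact Nat.one_le_iff_ne_zero.mpr (pow_ne_zero _ (by omega))
  · intro a
    exact ht5 () a i hi
  · intro a
    have := (ht1 () a).1
    omega
  · intro a b hab
    exact ht2 () a () b (fun h => hab (by simpa using h))
  · intro a b hd
    have h1 := (ht1 () b)
    have h2 := Nat.le_of_dvd (by omega) hd
    have h3 := hqlow a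
    omega
  · intro a p hp hpd
    have := ht3 () a p hp hpd
    omega
  · intro a
    have h1 := (ht1 () a).1
    have hX0' : (0 : ℝ) < X0 := by
      exact_mod_cast (show 0 < X0 by omega)
    have h2 := GAD.totient K X0 (t () a) (by omega) (by omega) (ht3 () a) (ht4 () a)
    have h3 := hqlow a
    set Q : ℕ := 2 * (E ^ ((i : ℕ) + 1)) ^ M * t () a with hQ
    have hQX : (X0 : ℝ) ≤ Q := by
      have : X0 ≤ Q := by omega
      exact_mod_cast this
    have h4 : (((Q + 1 : ℕ) : ℝ) / (((Q + 1 : ℕ) : ℝ) - 1)) ≤ 1 + 1 / (X0 : ℝ) := by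
      push_cast
      have hQ0 : (0 : ℝ) < Q := lt_of_lt_of_le hX0' hQX
      have e : ((Q : ℝ) + 1) / ((Q : ℝ) + 1 - 1) = 1 + 1 / (Q : ℝ) := by
        rw [add_sub_cancel_right]
        field_simp
      rw [e]
      have := one_div_le_one_div_of_le hX0' hQX
      linarith
    have h5 : (0 : ℝ) ≤ (((Q + 1 : ℕ) : ℝ) / (((Q + 1 : ℕ) : ℝ) - 1)) := by
      push_cast
      rw [add_sub_cancel_right]
      positivity
    have h6 : (0 : ℝ) < 1 + 1 / (X0 : ℝ) := by positivity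
    calc (t () a : ℝ) / (t () a).totient * (((Q + 1 : ℕ) : ℝ) / (((Q + 1 : ℕ) : ℝ) - 1))
        ≤ (1 + 1 / (X0 : ℝ)) ^ K * (1 + 1 / (X0 : ℝ)) :=
          mul_le_mul h2 h4 h5 (by positivity)
      _ = (1 + 1 / (X0 : ℝ)) ^ (K + 1) := by ring
      _ ≤ (Real.exp (1 / (X0 : ℝ))) ^ (K + 1) := by
          apply pow_le_pow_left₀ h6.le
          have := Real.add_one_le_exp (1 / (X0 : ℝ))
          linarith
      _ = Real.exp (((K + 1 : ℕ) : ℝ) * (1 / (X0 : ℝ))) := by rw [← Real.exp_nat_mul]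
      _ ≤ 1 + 2 * (((K + 1 : ℕ) : ℝ) * (1 / (X0 : ℝ))) := by
          apply GAD.exp_le
          · positivity
          · rw [mul_one_div]
            apply (div_le_one hX0').mpr
            exact_mod_cast hKX
      _ ≤ 1 + 1 / (4 * M) := by
          have hM' : (0 : ℝ) < M := by exact_mod_cast hM
          have h7 : (8 : ℝ) * M * ((K + 1 : ℕ) : ℝ) ≤ X0 := by exact_mod_cast hMX
          have h8 : 2 * (((K + 1 : ℕ) : ℝ) * (1 / (X0 : ℝ))) ≤ 1 / (4 * M) := by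
            rw [mul_one_div, ← mul_div_assoc, div_le_div_iff₀ hX0' (by positivity)]
            nlinarith
          linarith

end SAP
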